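import Mathlib
import Pool.Agent.X75B.Fin

/-!
# Representations of `G_K` whose residual representation is cut out by a field with one prime above
# `p` and class number prime to `p`: the image is the image of one decomposition group, and
# potentially ordinary representations are potentially abelian

Let `K` be a number field, for example a CM field, `p` a prime number (`p = 2` is allowed) and
`R : G_K → GL_m` a continuous representation over a Noetherian local ring of residue characteristic
`p`, for example over the ring of integers of a finite extension of `ℚ_p`. Suppose that there is a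
finite extension `D` of `K` with the following properties: `D` is totally complex, has exactly one
prime above `p` and its class number is not divisible by `p`; the restriction of `R` to `G_D` is
residually unipotent (its reduction has trivial semisimplification) and unramified outside `p`. For
example, `D` may be the field cut out by the residual representation, if it has the first three
properties. There is no other condition on the residual representation, which can be irreducible,
on the dimension and on the restriction of `R` to the decomposition groups at `p`.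

Theorem. Let `P` be any prime above `p` of the ring of all algebraic integers.
(1) `R (G_K) = R (D_P)` for the decomposition group `D_P` at `P`, and
    `R (G_D) = R (I_P ∩ G_D)` for the inertia group `I_P`. So `R (I_P)` has finite index in `R (G_K)`.
(2) Every subspace of `V = F ^ m` (`F` any field over the coefficient ring, for example an algebraic
    closure of `ℚ_p`) which is stable under a subgroup of finite index of `I_P` is stable under an
    open normal subgroup of `G_K`.
(3) If `V` is irreducible and contains a line which is stable under a subgroup of finite index of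
    `I_P` (for example if `R` is potentially ordinary at `P`, or if `R` is a twist of a
    representation with finite image on `I_P`), then `V` is potentially abelian: it is the direct
    sum of one-dimensional representations of an open normal subgroup.

If in (3) the representation is also potentially semi-stable, the characters are algebraic. If
moreover `m = 2`, then `R` is automorphic: by (1) its image is prosolvable, so `R` is a twist of a
representation with finite solvable image (Langlands, Tunnell) or induced from a character.
(This deduction is not part of the formal proof.)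

Proof. A character of order `p` of `G_D` which is unramified outside `p` and trivial on `I_P ∩ G_D`
is unramified everywhere, since the inertia groups above `p` are conjugate under `G_D`, so it is
trivial by Hilbert's theorem 94. By Burnside's basis theorem the finite `p`-groups `R (G_D)` modulo
the powers of the maximal ideal are generated by the images of `I_P ∩ G_D`; compactness gives (1).
Krull's intersection theorem shows that the stabilizers of subspaces are closed, which gives (2),
and (3) follows with Clifford's argument.
-/

set_option autoImplicit false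

namespace Pool.Agent.Results.MP_adf543_nt.GlobalImageIsLocal

open Matrix IsLocalRing NumberField

/-- The absolute Galois group of `K`, with its Krull topology. -/
abbrev Gal (K : Type) [Field K] : Type := AlgebraicClosure K ≃ₐ[K] AlgebraicClosure K

/-- The inertia group at the maximal ideal `P` of the ring of all algebraic integers of the algebraic
closure of `K`: the automorphisms which are trivial modulo `P`. -/
def Inertia {K : Type} [Field K] (P : Ideal (𝓞 (AlgebraicClosure K))) : Subgroup (Gal K) where
  carrier := {σ | ∀ x : 𝓞 (AlgebraicClosure K), σ • x - x ∈ P}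
  mul_mem' := fun ha hb => (Pool.Agent.Helper832_EG.inertia P).mul_mem ha hb
  one_mem' := (Pool.Agent.Helper832_EG.inertia P).one_mem
  inv_mem' := fun ha => (Pool.Agent.Helper832_EG.inertia P).inv_mem ha

/-- `σ` lies in the decomposition group at `P`: it maps `P` to itself. -/
def InDecomposition {K : Type} [Field K] (P : Ideal (𝓞 (AlgebraicClosure K))) (σ : Gal K) : Prop :=
  ∀ x : 𝓞 (AlgebraicClosure K), σ • x ∈ P ↔ x ∈ P

/-- The field `D` has (at most) one prime above `p`. -/
def OnePrimeAbove (D : Type) [Field D] (p : ℕ) : Prop :=
  ∀ v w : Ideal (𝓞 D), v.IsPrime → w.IsPrime → (p : 𝓞 D) ∈ v → (p : 𝓞 D) ∈ w → v = w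

/-- The representation `ρ` of `G_K` is continuous, and its restriction to `G_D` is residually
unipotent and unramified outside `p`. -/
structure AdmissibleOver (p : ℕ) {K : Type} [Field K] (D : IntermediateField K (AlgebraicClosure K))
    {A : Type} [CommRing A] [IsLocalRing A] [TopologicalSpace A] {m : ℕ}
    (ρ : Gal K →* GL (Fin m) A) : Prop where
  cont : ∀ i j, Continuous fun σ => (ρ σ : Matrix (Fin m) (Fin m) A) i j
  unipotent : ∀ σ ∈ D.fixingSubgroup, ∃ e : ℕ, ∀ i j,
    (((ρ σ : Matrix (Fin m) (Fin m) A) - 1) ^ e) i j ∈ maximalIdeal A
  unramified : ∀ P : Ideal (𝓞 (AlgebraicClosure K)), P.IsMaximal →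
    (p : 𝓞 (AlgebraicClosure K)) ∉ P → ∀ σ ∈ Inertia P, σ ∈ D.fixingSubgroup → ρ σ = 1

/-- The action of `σ` on `V = F ^ m`. -/
noncomputable def act {K : Type} [Field K] {A : Type} [CommRing A] (F : Type) [Field F] [Algebra A F]
    {m : ℕ} (ρ : Gal K →* GL (Fin m) A) (σ : Gal K) (v : Fin m → F) : Fin m → F :=
  ((ρ σ : Matrix (Fin m) (Fin m) A).map (algebraMap A F)) *ᵥ v

/-- The subspace `W` of `V` is stable under the group `H`. -/
def Stable {K : Type} [Field K] {A : Type} [CommRing A] (F : Type) [Field F] [Algebra A F]
    {m : ℕ} (ρ : Gal K →* GL (Fin m) A) (H : Subgroup (Gal K)) (W : Submodule F (Fin m → F)) : Prop :=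
  ∀ σ ∈ H, ∀ w ∈ W, act F ρ σ w ∈ W

/-- `V` is irreducible. -/
def Irreducible {K : Type} [Field K] {A : Type} [CommRing A] (F : Type) [Field F] [Algebra A F]
    {m : ℕ} (ρ : Gal K →* GL (Fin m) A) : Prop :=
  0 < m ∧ ∀ W : Submodule F (Fin m → F), Stable F ρ ⊤ W → W = ⊥ ∨ W = ⊤

/-- The subspace `W` of `V` is potentially stable under `I`: it is stable under a subgroup of finite
index of `I`. -/
def PotentiallyStable {K : Type} [Field K] {A : Type} [CommRing A] (F : Type) [Field F] [Algebra A F]
    {m : ℕ} (ρ : Gal K →* GL (Fin m) A) (I : Subgroup (Gal K)) (W : Submodule F (Fin m → F)) : Prop :=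
  ∃ I' : Subgroup (Gal K), I' ≤ I ∧ I'.relIndex I ≠ 0 ∧ Stable F ρ I' W

/-- **The image of `G_K` is the image of one decomposition group, the image of inertia is of finite
index, and potentially ordinary irreducible representations are potentially abelian.** -/
theorem result : ∀ (K : Type) [Field K] [NumberField K] (p : ℕ) [Fact p.Prime]
    (D : IntermediateField K (AlgebraicClosure K)) [FiniteDimensional K D] [NumberField D]
    [IsTotallyComplex D], OnePrimeAbove D p → ¬ p ∣ classNumber D →
    ∀ (A : Type) [CommRing A] [IsLocalRing A] [IsNoetherianRing A] [TopologicalSpace A],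
      IsAdic (maximalIdeal A) → (p : A) ∈ maximalIdeal A →
    ∀ (m : ℕ) (ρ : Gal K →* GL (Fin m) A), AdmissibleOver p D ρ →
    ∀ P : Ideal (𝓞 (AlgebraicClosure K)), P.IsMaximal → (p : 𝓞 (AlgebraicClosure K)) ∈ P →
      -- the images of the decomposition and of the inertia group
      (∀ σ : Gal K, ∃ τ : Gal K, InDecomposition P τ ∧ ρ τ = ρ σ) ∧
      (∀ σ ∈ D.fixingSubgroup, ∃ τ ∈ Inertia P, τ ∈ D.fixingSubgroup ∧ ρ τ = ρ σ) ∧
      ∀ (F : Type) [Field F] [Algebra A F],
        -- potentially stable subspaces
        (∀ W : Submodule F (Fin m → F), PotentiallyStable F ρ (Inertia P) W →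
          ∃ N : Subgroup (Gal K), N.Normal ∧ IsOpen (N : Set (Gal K)) ∧ Stable F ρ N W) ∧
        -- potentially ordinary representations
        (Irreducible F ρ → (∃ v : Fin m → F, v ≠ 0 ∧
            PotentiallyStable F ρ (Inertia P) (Submodule.span F {v})) →
          ∃ N : Subgroup (Gal K), N.Normal ∧ IsOpen (N : Set (Gal K)) ∧
            ∃ b : Module.Basis (Fin m) F (Fin m → F), ∀ i, ∀ σ ∈ N, ∃ c : F, act F ρ σ (b i) = c • b i) := by
  intro K _ _ p _ D _ _ _ h1 hcl A _ _ _ _ hA hpA m ρ hρ P hP hpP
  have hcts := Pool.Agent.X75B.cts_of_cont hA hρ.cont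
  have hI : ∀ σ ∈ D.fixingSubgroup, ∃ τ ∈ Pool.Agent.Helper832_EG.inertia P,
      τ ∈ D.fixingSubgroup ∧ ρ τ = ρ σ := fun σ hσ =>
    Pool.Agent.X75B.inertia_surj D hcl h1 hpA hcts hρ.unipotent hρ.unramified hP hpP σ hσ
  refine ⟨fun σ => ?_, hI, fun F _ _ => ⟨fun W hW => ?_, fun hirr hline => ?_⟩⟩
  · obtain ⟨τ, hτ, hτσ⟩ := Pool.Agent.X75B.dec_surj D h1 hP hpP hI σ
    exact ⟨τ, hτ, hτσ⟩
  · have hf := Pool.Agent.X75B.stab_finite (F := F) D hI (X := W) hW
    refine ⟨_, inferInstance, Pool.Agent.X75B.core_open hcts hf, ?_⟩
    exact (Pool.Agent.X75B.st_stab W).mono (Subgroup.normalCore_le _)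
  · obtain ⟨v, hv, hvs⟩ := hline
    have hf := Pool.Agent.X75B.stab_finite (F := F) D hI (X := Submodule.span F {v}) hvs
    obtain ⟨N, hN, hNo, hspan⟩ := Pool.Agent.X75B.pot_abelian (F := F) hcts (ρ := ρ) (by
      refine ⟨fun h => ?_, fun X _ hX => hirr.2 X hX⟩
      have h2 : Module.finrank F (⊤ : Submodule F (Fin m → F)) =
          Module.finrank F (⊥ : Submodule F (Fin m → F)) := by rw [h]
      rw [finrank_top, finrank_bot, Module.finrank_fin_fun] at h2
      exact absurd h2 hirr.1.ne') hv hf
    refine ⟨N, hN, hNo, ?_⟩
    set S : Set (Fin m → F) := {y | ∀ σ ∈ N, ∃ c : F, Pool.Agent.X75B.ac F ρ σ y = c • y} with hS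
    have htop : Submodule.span F S = ⊤ := eq_top_iff.2 fun x _ => hspan x
    let b0 := Module.Basis.ofSpan htop.ge
    have hb0 : ∀ i, b0 i ∈ S := fun i => Module.Basis.ofSpan_subset htop.ge ⟨i, rfl⟩
    let e := b0.indexEquiv (Pi.basisFun F (Fin m))
    refine ⟨b0.reindex e, fun i σ hσ => ?_⟩
    rw [Module.Basis.reindex_apply]
    exact hb0 (e.symm i) σ hσ

end Pool.Agent.Results.MP_adf543_nt.GlobalImageIsLocal
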