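import Mathlib
import Pool.Agent.X75B.Fin

/-!
# Residually unipotent representations over CM fields with one prime above `p` and class number
# prime to `p` are induced from representations which are strongly irreducible on inertia

Let `p` be a prime number and let `K` be a totally complex number field, for example a CM field, with
exactly one prime above `p` and class number not divisible by `p`. Examples are `ℚ(ζ)` for a root of
unity `ζ` of order a power of a regular prime `p`, the imaginary quadratic fields of class number
prime to `p` in which `p` does not split, and all finite extensions of `K` contained in the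
Galois extensions of `K` of degree a power of `p` which are unramified outside `p`.

Let `R : G_K → GL_m` be a continuous representation over a Noetherian local ring `A` of residue
characteristic `p` (for example the ring of integers of a finite extension of `ℚ_p`), unramified
outside `p` and residually unipotent (its reduction has trivial semisimplification), and let `F` be an
algebraically closed field over `A`, for example an algebraic closure of `ℚ_p`. Suppose that
`V = F ^ m` is irreducible. The dimension is arbitrary and there is no condition at `p`.

Theorem. `V` is induced from a representation `U` of `G_L`, where the degree of `L / K` is a power of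
`p` (and `L` is contained in a Galois extension of `K` of degree a power of `p`), such that `U` is
irreducible under every subgroup of finite index of the inertia groups of `L` above `p`. If `V`
contains a line which is stable under a subgroup of finite index of one inertia group at a prime above
`p` (for example if `R` is potentially ordinary, or potentially a twist of an unramified
representation), then `dim U = 1`, so `V` is monomial and `m` is a power of `p`.

So if `m` is prime to `p`, then `V` is strongly irreducible on inertia or `m = 1`, and if
`m = p`, then `V` is strongly irreducible on inertia or monomial. If in the monomial case `R` is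
potentially semi-stable, the character is algebraic, and `R` is automorphic by class field theory and
the automorphic induction of Arthur and Clozel (`L / K` is a tower of cyclic extensions of degree
`p`). (This deduction is not part of the formal proof.)

Proof. By Hilbert's theorem 94 and Burnside's basis theorem the inertia group at one place above `p`
has the same image under `R` as `G_K` (`GlobalImageIsLocal`), so potentially stable subspaces are
stable under open subgroups of index a power of `p`. Choose `L` and `U` with `V` induced from `U`
and `dim U` minimal. If `U` is reducible on an open normal subgroup of `G_L` of index a power of `p`,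
let `N` be the largest such subgroup and `x` an element of `G_L` which is central modulo `N` and
not in `N`. Clifford's theorem shows that `U` is an isotypic representation of `N`; if `W` is
an irreducible subrepresentation, then `x W` and `W` are isomorphic, and an eigenvector of the operator
`f ↦ x f ψ` on `Hom_N (W, U)`, where `ψ = x⁻¹ φ` for an isomorphism `φ : W → x W`, gives a proper
subspace of `U` which is stable under `N` and `x`, a contradiction.
-/

set_option autoImplicit false

namespace Pool.Agent.Results.MP_adf543_nt.InducedStronglyIrreducible

open Matrix IsLocalRing NumberField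

/-- The absolute Galois group of `K`, with its Krull topology. -/
abbrev Gal (K : Type) [Field K] : Type := AlgebraicClosure K ≃ₐ[K] AlgebraicClosure K

/-- The inertia group at the maximal ideal `P` of the ring of all algebraic integers of the algebraic
closure of `K`: the automorphisms which are trivial modulo `P`. -/
def Inertia {K : Type} [Field K] (P : Ideal (𝓞 (AlgebraicClosure K))) : Subgroup (Gal K) where
  carrier := {σ | ∀ x : 𝓞 (AlgebraicClosure K), σ • x - x ∈ P}
  mul_mem' := fun ha hb => (Pool.Agent.Helper832_EG.inertia P).mul_mem ha hb
  one_mem' := (Pool.Agent.Helper832_EG.inertia P).one_mem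
  inv_mem' := fun ha => (Pool.Agent.Helper832_EG.inertia P).inv_mem ha

/-- The field `K` has (at most) one prime above `p`. -/
def OnePrimeAbove (K : Type) [Field K] (p : ℕ) : Prop :=
  ∀ v w : Ideal (𝓞 K), v.IsPrime → w.IsPrime → (p : 𝓞 K) ∈ v → (p : 𝓞 K) ∈ w → v = w

/-- The representation `ρ` of `G_K` is continuous, residually unipotent and unramified outside
`p`. -/
structure Admissible (p : ℕ) {K : Type} [Field K] {A : Type} [CommRing A] [IsLocalRing A]
    [TopologicalSpace A] {m : ℕ} (ρ : Gal K →* GL (Fin m) A) : Prop where
  cont : ∀ i j, Continuous fun σ => (ρ σ : Matrix (Fin m) (Fin m) A) i j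
  unipotent : ∀ σ, ∃ e : ℕ, ∀ i j,
    (((ρ σ : Matrix (Fin m) (Fin m) A) - 1) ^ e) i j ∈ maximalIdeal A
  unramified : ∀ P : Ideal (𝓞 (AlgebraicClosure K)), P.IsMaximal →
    (p : 𝓞 (AlgebraicClosure K)) ∉ P → ∀ σ ∈ Inertia P, ρ σ = 1

/-- The action of `σ` on `V = F ^ m`. -/
noncomputable def act {K : Type} [Field K] {A : Type} [CommRing A] (F : Type) [Field F] [Algebra A F]
    {m : ℕ} (ρ : Gal K →* GL (Fin m) A) (σ : Gal K) (v : Fin m → F) : Fin m → F :=
  ((ρ σ : Matrix (Fin m) (Fin m) A).map (algebraMap A F)) *ᵥ v

/-- The subspace `W` of `V` is stable under the group `H`. -/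
def Stable {K : Type} [Field K] {A : Type} [CommRing A] (F : Type) [Field F] [Algebra A F]
    {m : ℕ} (ρ : Gal K →* GL (Fin m) A) (H : Subgroup (Gal K)) (W : Submodule F (Fin m → F)) : Prop :=
  ∀ σ ∈ H, ∀ w ∈ W, act F ρ σ w ∈ W

/-- The subspace `W` of `V` is nonzero, and it has no proper nonzero subspace which is stable under
the group `H`. -/
def Irreducible {K : Type} [Field K] {A : Type} [CommRing A] (F : Type) [Field F] [Algebra A F]
    {m : ℕ} (ρ : Gal K →* GL (Fin m) A) (H : Subgroup (Gal K)) (W : Submodule F (Fin m → F)) : Prop :=
  W ≠ ⊥ ∧ ∀ X : Submodule F (Fin m → F), X ≤ W → Stable F ρ H X → X = ⊥ ∨ X = W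

/-- `V` potentially contains a line on `I`: some nonzero vector of `V` is an eigenvector of all
elements of a subgroup of finite index of `I`. -/
def PotentialLine {K : Type} [Field K] {A : Type} [CommRing A] (F : Type) [Field F] [Algebra A F]
    {m : ℕ} (ρ : Gal K →* GL (Fin m) A) (I : Subgroup (Gal K)) : Prop :=
  ∃ (I' : Subgroup (Gal K)) (v : Fin m → F), I' ≤ I ∧ I'.relIndex I ≠ 0 ∧ v ≠ 0 ∧
    ∀ σ ∈ I', ∃ c : F, act F ρ σ v = c • v

/-- The irreducible representation `V` is induced from the representation `U` of the open subgroup
`L`: the subspace `U` is stable under `L`, and the index of `L` times the dimension of `U` is the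
dimension of `V`. The group `L` contains an open normal subgroup `T` of index a power of `p`. -/
structure InducedFrom (p : ℕ) {K : Type} [Field K] {A : Type} [CommRing A] (F : Type) [Field F]
    [Algebra A F] {m : ℕ} (ρ : Gal K →* GL (Fin m) A) (L : Subgroup (Gal K))
    (U : Submodule F (Fin m → F)) : Prop where
  ex : ∃ T : Subgroup (Gal K), T.Normal ∧ IsOpen (T : Set (Gal K)) ∧ T ≤ L ∧ ∃ b : ℕ, T.index = p ^ b
  stable : Stable F ρ L U
  dim : L.index * Module.finrank F U = m

/-- **Irreducible representations are induced from representations which are strongly irreducible on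
inertia, and monomial if they potentially contain a line on one inertia group above `p`.** -/
theorem result : ∀ (K : Type) [Field K] [NumberField K] [IsTotallyComplex K] (p : ℕ) [Fact p.Prime],
    OnePrimeAbove K p → ¬ p ∣ classNumber K →
    ∀ (A : Type) [CommRing A] [IsLocalRing A] [IsNoetherianRing A] [TopologicalSpace A],
      IsAdic (maximalIdeal A) → (p : A) ∈ maximalIdeal A →
    ∀ (F : Type) [Field F] [IsAlgClosed F] [Algebra A F] (m : ℕ) (ρ : Gal K →* GL (Fin m) A),
      Admissible p ρ → Irreducible F ρ ⊤ ⊤ →
      ∃ (L : Subgroup (Gal K)) (U : Submodule F (Fin m → F)), InducedFrom p F ρ L U ∧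
        (∀ P : Ideal (𝓞 (AlgebraicClosure K)), P.IsMaximal → (p : 𝓞 (AlgebraicClosure K)) ∈ P →
          ∀ I' : Subgroup (Gal K), I' ≤ Inertia P ⊓ L → I'.relIndex (Inertia P ⊓ L) ≠ 0 →
            Irreducible F ρ I' U) ∧
        ((∃ P : Ideal (𝓞 (AlgebraicClosure K)), P.IsMaximal ∧ (p : 𝓞 (AlgebraicClosure K)) ∈ P ∧
          PotentialLine F ρ (Inertia P)) → Module.finrank F U = 1) := by
  intro K _ _ _ p _ h1 hcl A _ _ _ _ hA hpA F _ _ _ m ρ hρ hirr
  have hcts := Pool.Agent.X75B.cts_of_cont hA hρ.cont
  obtain ⟨T, L, U, hTn, hTo, hTL, hTi, hst, hdim, hs, hl⟩ :=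
    Pool.Agent.X75B.main_structure (F := F) (p := p) hcts hpA hρ.unipotent
      (ℐ := {I | ∃ P : Ideal (𝓞 (AlgebraicClosure K)), P.IsMaximal ∧
        (p : 𝓞 (AlgebraicClosure K)) ∈ P ∧ I = Pool.Agent.Helper832_EG.inertia P})
      (by
        rintro _ ⟨P, hP, hpP, rfl⟩ g
        exact Pool.Agent.X75B.inertia_surj' hcl h1 hpA hcts hρ.unipotent hρ.unramified hP hpP g)
      hirr
  refine ⟨L, U, ⟨⟨T, hTn, hTo, hTL, hTi⟩, hst, hdim⟩, fun P hP hpP I' hI' hf => ?_, ?_⟩
  · exact hs _ ⟨P, hP, hpP, rfl⟩ I' hI' hf
  · rintro ⟨P, hP, hpP, I', v, h2, h3, h4, h5⟩
    exact hl _ ⟨P, hP, hpP, rfl⟩ ⟨I', v, h2, h3, h4, h5⟩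

end Pool.Agent.Results.MP_adf543_nt.InducedStronglyIrreducible
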